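import Pool.Agent.Run7.h719.CG.CertR

/-!
# Averages of functions of two gaps, for an arbitrary pairing of the gaps
-/

open Filter Topology Set

namespace Run7.h719.CG

open Pool.Agent.Y747 Pool.Agent.TH873.EW

lemma ct_abs (g : ℝ → ℝ) (x : ℝ) : ct g |x| = ct g x := by
  rcases abs_choice x with h | h
  · rw [h]
  · rw [h]
    unfold ct
    simp only [mul_neg, neg_mul, Real.cos_neg]

/-- for any pairing of the first `N` gaps: averages of a function of the two gaps of a pair below
`c + r(0) + r(x) + r(y) + lam (x + y - 2)` -/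
theorem avgP (hRH : RiemannHypothesis) {g : ℝ → ℝ} (hg : ContDiff ℝ 1 g) (h1 : g 1 = 0)
    (hpos : ∀ x, 0 ≤ ct g x) {lam c : ℝ} (hlam : 0 ≤ lam) {φ : ℝ → ℝ → ℝ}
    (hφ : ∀ x y, 0 ≤ x → 0 ≤ y → φ x y ≤ c + ct g 0 + ct g x + ct g y + lam * (x + y - 2))
    (ε : ℝ) (hε : 0 < ε) :
    ∀ᶠ N : ℕ in atTop, ∀ σ : ℕ → ℕ, Set.BijOn σ (Set.Icc 1 N) (Set.Icc 1 N) →
      ∑ n ∈ Finset.Icc 1 N, φ |dl n| |dl (σ n)| ≤ (c + mom g + ε) * N := by
  obtain ⟨n0, hn0⟩ := dl_nonneg
  obtain ⟨K, hK⟩ : ∃ K : ℝ, K = ∑ n ∈ Finset.range n0, 2 * |dl n| := ⟨_, rfl⟩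
  have hKD : ∀ N : ℕ, ∑ n ∈ Finset.Icc 1 N, |dl n| ≤ ∑ n ∈ Finset.Icc 1 N, dl n + K := by
    intro N
    have h2 : ∀ n ∈ Finset.Icc 1 N, |dl n| - dl n ≤ if n ∈ Finset.range n0 then 2 * |dl n| else 0 := by
      intro n _
      split_ifs with h
      · have := neg_abs_le (dl n)
        linarith
      · rw [Finset.mem_range, not_lt] at h
        rw [abs_of_nonneg (hn0 n h), sub_self]
    have h3 : ∑ n ∈ Finset.Icc 1 N, (|dl n| - dl n) ≤ K := by
      refine (Finset.sum_le_sum h2).trans ?_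
      rw [← Finset.sum_filter, hK]
      apply Finset.sum_le_sum_of_subset_of_nonneg
      · intro n hn
        exact (Finset.mem_filter.1 hn).2
      · intro n _ _
        positivity
    rw [Finset.sum_sub_distrib] at h3
    linarith
  have ev : ∀ᶠ N : ℕ in atTop, lam * (2 * |K|) / (ε / 4) ≤ (N : ℝ) :=
    tendsto_natCast_atTop_atTop.eventually_ge_atTop _
  obtain ⟨η, hη⟩ : ∃ η : ℝ, η = ε / (8 * (lam + 1)) := ⟨_, rfl⟩
  have hη0 : 0 < η := by rw [hη]; positivity
  have hη2 : lam * η ≤ ε / 8 := by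
    calc lam * η = (lam / (lam + 1)) * (ε / 8) := by rw [hη]; field_simp
      _ ≤ 1 * (ε / 8) := by
        apply mul_le_mul_of_nonneg_right _ (by positivity)
        rw [div_le_one (by positivity)]
        linarith
      _ = _ := one_mul _
  filter_upwards [main hRH hg h1 hpos (ε / 4) (by positivity), sum_dl_le η hη0, ev]
    with N a1 b1 h4 σ hσ
  have h5 := hKD N
  rw [div_le_iff₀ (by positivity)] at h4
  have hN0 : (0 : ℝ) ≤ N := Nat.cast_nonneg N
  have perm : ∀ f : ℕ → ℝ, ∑ n ∈ Finset.Icc 1 N, f (σ n) = ∑ n ∈ Finset.Icc 1 N, f n := by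
    intro f
    apply Finset.sum_nbij σ
    · intro n hn
      have := hσ.mapsTo (by simpa using hn : n ∈ Set.Icc 1 N)
      simpa using this
    · intro a ha b hb hab
      exact hσ.injOn (by simpa using ha) (by simpa using hb) hab
    · intro b hb
      obtain ⟨a, ha, hab⟩ := hσ.surjOn (by simpa using hb : b ∈ Set.Icc 1 N)
      exact ⟨a, by simpa using ha, hab⟩
    · intro n _
      rfl
  have e0 : ∑ n ∈ Finset.Icc 1 N, φ |dl n| |dl (σ n)| ≤ ∑ n ∈ Finset.Icc 1 N,
      (c + 1 / 2 * (ct g 0 + 2 * ct g (dl n)) + 1 / 2 * (ct g 0 + 2 * ct g (dl (σ n))) +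
        lam * (|dl n| + |dl (σ n)| - 2)) := by
    apply Finset.sum_le_sum
    intro n _
    have := hφ |dl n| |dl (σ n)| (abs_nonneg _) (abs_nonneg _)
    rw [ct_abs, ct_abs] at this
    linarith
  have e3 : ∑ _n ∈ Finset.Icc 1 N, c = c * N := by
    rw [Finset.sum_const, Nat.card_Icc, Nat.add_sub_cancel, nsmul_eq_mul, mul_comm]
  have e4 : ∑ _n ∈ Finset.Icc 1 N, (2 : ℝ) = 2 * N := by
    rw [Finset.sum_const, Nat.card_Icc, Nat.add_sub_cancel, nsmul_eq_mul, mul_comm]
  have e5 : ∑ n ∈ Finset.Icc 1 N, (|dl n| + |dl (σ n)| - 2) =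
      ∑ n ∈ Finset.Icc 1 N, |dl n| + ∑ n ∈ Finset.Icc 1 N, |dl n| - 2 * N := by
    rw [Finset.sum_sub_distrib, Finset.sum_add_distrib, e4, perm fun n => |dl n|]
  refine e0.trans ?_
  rw [Finset.sum_add_distrib, Finset.sum_add_distrib, Finset.sum_add_distrib, e3,
    ← Finset.mul_sum, ← Finset.mul_sum, ← Finset.mul_sum, e5,
    perm fun n => ct g 0 + 2 * ct g (dl n)]
  have k1 : ∑ n ∈ Finset.Icc 1 N, |dl n| + ∑ n ∈ Finset.Icc 1 N, |dl n| - 2 * N ≤
      2 * η * N + 2 * |K| := by
    have := le_abs_self K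
    linarith
  have k2 := mul_le_mul_of_nonneg_left k1 hlam
  have k3 : lam * (2 * η * N + 2 * |K|) ≤ ε / 4 * N + lam * (2 * |K|) := by
    have := mul_le_mul_of_nonneg_right hη2 hN0
    linarith
  have k4 := mul_nonneg hε.le hN0
  linarith

lemma amgm {lam a σ y : ℝ} (hl : 0 < lam) (h : σ ^ 2 ≤ 4 * lam * a) (hy : 0 < y) :
    σ ≤ lam * y + a / y := by
  have h1 : lam * y + a / y = (lam * y ^ 2 + a) / y := by field_simp
  rw [h1, le_div_iff₀ hy]
  nlinarith [sq_nonneg (2 * lam * y - σ)]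

lemma np_R (p : ℝ) (_hp : 0 ≤ p) : 0 ≤ Np (5653 / 5000) (-12811 / 10000) (363 / 1000) p := by
  have e : Np (5653 / 5000) (-12811 / 10000) (363 / 1000) p =
      363 / 1000 * (p - 12811 / 7260) ^ 2 + (5653 / 5000 - 12811 ^ 2 / (4 * 363 * 100000)) := by
    unfold Np
    ring
  rw [e]
  have : (0 : ℝ) ≤ 5653 / 5000 - 12811 ^ 2 / (4 * 363 * 100000) := by norm_num
  positivity

/-- the kernel of the ratio -/
noncomputable abbrev gR : ℝ → ℝ := gk (5653 / 5000) (-12811 / 10000) (363 / 1000)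

lemma ctR (x : ℝ) : 0 ≤ ct gR x := ct_gk_nonneg np_R x

/-- the inequality of the ratio, `x ≤ y` -/
lemma ratio_le {x y : ℝ} (hx : 0 ≤ x) (hxy : x ≤ y) :
    15315 / 10000 ≤ ct gR x + ct gR y + 7 / 20 * (x + y) + x / y := by
  have hl : (0 : ℝ) < 7 / 20 := by norm_num
  have r0 := ctR x
  have r1 := ctR y
  rcases eq_or_lt_of_le (hx.trans hxy) with hy | hy
  · have hx0 : x = 0 := le_antisymm (by rw [hy]; exact hxy) hx
    rw [← hy, hx0, ct_gk_zero]
    norm_num
  rcases le_total 1 x with h | h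
  · have h1 := amgm (a := 1) (σ := 118321 / 100000) hl (by norm_num) hy
    have h2 : 1 / y ≤ x / y := by gcongr
    linarith
  rcases le_total (9 / 20) x with h9 | h9
  · -- chords
    have chord : ∀ a b σ τ : ℝ, a < b → σ ^ 2 ≤ 4 * (7 / 20) * a → τ ^ 2 ≤ 4 * (7 / 20) * b →
        a ≤ x → x ≤ b → σ + (τ - σ) / (b - a) * (x - a) ≤ 7 / 20 * y + x / y := by
      intro a b σ τ hab h1 h2 h3 h4
      have k1 := amgm (a := a) (σ := σ) hl h1 hy
      have k2 := amgm (a := b) (σ := τ) hl h2 hy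
      have hba : 0 < b - a := by linarith
      obtain ⟨t, ht⟩ : ∃ t : ℝ, t = (x - a) / (b - a) := ⟨_, rfl⟩
      have ht0 : 0 ≤ t := by rw [ht]; exact div_nonneg (by linarith) hba.le
      have ht1 : t ≤ 1 := by rw [ht, div_le_one hba]; linarith
      have e1 : x = (1 - t) * a + t * b := by
        rw [ht]
        field_simp
        ring
      have e2 : (τ - σ) / (b - a) * (x - a) = (τ - σ) * t := by rw [ht]; ring
      rw [e2]
      have e3 : 7 / 20 * y + x / y = (1 - t) * (7 / 20 * y + a / y) + t * (7 / 20 * y + b / y) := by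
        nth_rewrite 1 [e1]
        ring
      rw [e3]
      nlinarith [mul_le_mul_of_nonneg_left k1 (sub_nonneg.2 ht1), mul_le_mul_of_nonneg_left k2 ht0]
    rcases le_total x (3 / 5) with h6 | h6
    · have k := cr2 np_R x h9 h6
      change _ ≤ ct gR x at k
      have c := chord (9 / 20) (3 / 5) (19843 / 25000) (91651 / 100000) (by norm_num) (by norm_num)
        (by norm_num) h9 h6
      norm_num at c
      linarith
    rcases le_total x (7 / 10) with h7 | h7
    · have k := cr3 np_R x h6 h7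
      change _ ≤ ct gR x at k
      have c := chord (3 / 5) (7 / 10) (91651 / 100000) (49497 / 50000) (by norm_num) (by norm_num)
        (by norm_num) h6 h7
      norm_num at c
      linarith
    rcases le_total x (4 / 5) with h8 | h8
    · have k := cr4 np_R x h7 h8
      change _ ≤ ct gR x at k
      have c := chord (7 / 10) (4 / 5) (49497 / 50000) (10583 / 10000) (by norm_num) (by norm_num)
        (by norm_num) h7 h8
      norm_num at c
      linarith
    · have k := cr5 np_R x h8 h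
      change _ ≤ ct gR x at k
      have c := chord (4 / 5) 1 (10583 / 10000) (118321 / 100000) (by norm_num) (by norm_num)
        (by norm_num) h8 h
      norm_num at c
      linarith
  · -- `x ≤ 9/20`
    have k := cr1 np_R x hx h9
    change _ ≤ ct gR x at k
    have b0 : 2007 / 5000 ≤ ct gR y + 7 / 20 * y := by
      rcases le_total y (23 / 20) with hh | hh
      · have := cr0 np_R y hy.le hh
        change _ ≤ ct gR y at this
        linarith
      · linarith
    have b1 := amgm (a := 9 / 20) (σ := 19843 / 25000) hl (by norm_num) hy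
    obtain ⟨t, ht⟩ : ∃ t : ℝ, t = x / (9 / 20) := ⟨_, rfl⟩
    have ht0 : 0 ≤ t := by rw [ht]; positivity
    have ht1 : t ≤ 1 := by rw [ht, div_le_one (by norm_num)]; exact h9
    have hx' : x = t * (9 / 20) := by rw [ht]; field_simp
    have e3 : ct gR y + 7 / 20 * y + x / y = (1 - t) * (ct gR y + 7 / 20 * y) +
        t * (ct gR y + (7 / 20 * y + 9 / 20 / y)) := by
      nth_rewrite 1 [hx']
      ring
    have e4 : (1 - t) * (2007 / 5000) + t * (19843 / 25000) ≤ ct gR y + 7 / 20 * y + x / y := by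
      rw [e3]
      have k1 := mul_le_mul_of_nonneg_left b0 (sub_nonneg.2 ht1)
      have k2 := mul_le_mul_of_nonneg_left
        (show 19843 / 25000 ≤ ct gR y + (7 / 20 * y + 9 / 20 / y) by linarith) ht0
      linarith
    rw [ht] at e4
    norm_num at e4
    linarith

/-- the minimum divided by the maximum -/
theorem ratio_ge (hRH : RiemannHypothesis) : ∀ᶠ N : ℕ in atTop,
    ∀ σ : ℕ → ℕ, Set.BijOn σ (Set.Icc 1 N) (Set.Icc 1 N) →
    (0.403 : ℝ) * N ≤ ∑ n ∈ Finset.Icc 1 N, min |dl n| |dl (σ n)| / max |dl n| |dl (σ n)| := by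
  have h := avgP hRH (cd_gk (5653 / 5000) (-12811 / 10000) (363 / 1000))
    (gk_one (5653 / 5000) (-12811 / 10000) (363 / 1000)) ctR
    (lam := 7 / 20) (c := -(15315 / 10000) - 5653 / 5000 + 2 * (7 / 20)) (by norm_num)
    (φ := fun x y => -(min x y / max x y)) (fun x y hx hy => by
      rw [ct_gk_zero]
      rcases le_total x y with hxy | hxy
      · have := ratio_le hx hxy
        unfold gR at this
        rw [min_eq_left hxy, max_eq_right hxy]
        linarith
      · have := ratio_le hy hxy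
        unfold gR at this
        rw [min_eq_right hxy, max_eq_left hxy]
        linarith) (1 / 100000) (by norm_num)
  rw [mom_gk] at h
  filter_upwards [h] with N hN' σ hσ
  have hN := hN' σ hσ
  rw [Finset.sum_neg_distrib] at hN
  have h1 := Real.pi_gt_d6
  have h2 := Real.pi_lt_d6
  have h3 : (0.02533 : ℝ) < 1 / (4 * Real.pi ^ 2) := by
    rw [lt_div_iff₀ (by positivity)]
    nlinarith
  have e : Vf (5653 / 5000) (-12811 / 10000) (363 / 1000) =
      (4 / 3 * (5653 / 5000) + (5653 / 5000 - 12811 / 10000 + 363 / 1000) / 2 : ℝ) -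
        (2 * (5653 / 5000 - 363 / 1000) + 3 * (5653 / 5000 - 12811 / 10000 + 363 / 1000)) *
          (1 / (4 * Real.pi ^ 2)) := by
    unfold Vf
    ring
  have h4 : -(15315 / 10000) - 5653 / 5000 + 2 * (7 / 20) +
      Vf (5653 / 5000) (-12811 / 10000) (363 / 1000) + 1 / 100000 ≤ -0.403 := by
    rw [e]
    linarith
  have hN0 : (0 : ℝ) ≤ N := Nat.cast_nonneg N
  have h5 := mul_le_mul_of_nonneg_right h4 hN0
  linarith

end Run7.h719.CG
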